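import Mathlib
import Pool.Agent.Y52.SJ.Stm3

set_option autoImplicit false

/-! LOZ: the Lozanovskii factorisation is continuous. -/

open Filter Topology

namespace Pool.Agent.Y297.SJ

open Pool.Agent.Y52.SJ

/-- the maximiser -/
theorem exists_max {m : ℕ} (T : Set (Fin m → ℝ)) (hT : Body T) (I : Fin m → ℝ)
    (hI : ∀ i, 0 < I i) : ∃ X ∈ T, (∀ i, 0 < X i) ∧
      ∀ t ∈ T, (∀ i, 0 < t i) → ∑ i, I i * Real.log (t i) ≤ ∑ i, I i * Real.log (X i) := by
  obtain ⟨x0, hx0, hx0p⟩ := hT.pos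
  have hcont : Continuous (fun x : Fin m → ℝ => ∏ i, |x i| ^ (I i)) := by
    refine continuous_finsetProd _ fun i _ => ?_
    exact (continuous_apply i).abs.rpow_const fun x => Or.inr (hI i).le
  obtain ⟨y, hy, hmax⟩ := hT.cpt.exists_isMaxOn ⟨x0, hx0⟩ hcont.continuousOn
  have hpos : 0 < ∏ i, |y i| ^ (I i) := by
    have h1 : ∏ i, |x0 i| ^ (I i) ≤ ∏ i, |y i| ^ (I i) := hmax hx0
    refine lt_of_lt_of_le ?_ h1
    exact Finset.prod_pos fun i _ => Real.rpow_pos_of_pos (abs_pos.mpr (hx0p i).ne') _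
  have hyi : ∀ i, 0 < |y i| := by
    intro i
    rw [abs_pos]
    intro h0
    have h1 : ∏ i, |y i| ^ (I i) = 0 := by
      refine Finset.prod_eq_zero (Finset.mem_univ i) ?_
      rw [h0, abs_zero, Real.zero_rpow (hI i).ne']
    rw [h1] at hpos
    exact lt_irrefl _ hpos
  have hlog : ∀ t : Fin m → ℝ, (∀ i, 0 < t i) →
      Real.log (∏ i, |t i| ^ (I i)) = ∑ i, I i * Real.log (t i) := by
    intro t ht
    rw [Real.log_prod (fun i _ => (Real.rpow_pos_of_pos (abs_pos.mpr (ht i).ne') _).ne')]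
    refine Finset.sum_congr rfl fun i _ => ?_
    rw [Real.log_rpow (abs_pos.mpr (ht i).ne'), Real.log_abs]
  refine ⟨fun i => |y i|, hT.solid y hy _ fun i => by rw [abs_abs], hyi, fun t ht htp => ?_⟩
  rw [← hlog t htp, ← hlog (fun i => |y i|) hyi]
  refine Real.log_le_log
    (Finset.prod_pos fun i _ => Real.rpow_pos_of_pos (abs_pos.mpr (htp i).ne') _) ?_
  have h1 : ∏ i, |t i| ^ (I i) ≤ ∏ i, |y i| ^ (I i) := hmax ht
  simpa only [abs_abs] using h1

/-- optimality -/
theorem opt {m : ℕ} (T : Set (Fin m → ℝ)) (hT : Convex ℝ T) (I X : Fin m → ℝ)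
    (hX : X ∈ T) (hXp : ∀ i, 0 < X i)
    (hmax : ∀ t ∈ T, (∀ i, 0 < t i) → ∑ i, I i * Real.log (t i) ≤ ∑ i, I i * Real.log (X i))
    (t : Fin m → ℝ) (ht : t ∈ T) : ∑ i, I i / X i * t i ≤ ∑ i, I i := by
  set φ : ℝ → ℝ := fun s => ∑ i, I i * Real.log (X i + s * (t i - X i)) with hφ
  have hd : HasDerivAt φ (∑ i, I i * ((t i - X i) / X i)) 0 := by
    refine HasDerivAt.fun_sum fun i _ => ?_
    have h1 : HasDerivAt (fun s : ℝ => X i + s * (t i - X i)) (t i - X i) 0 := by
      have := ((hasDerivAt_id (0 : ℝ)).mul_const (t i - X i)).const_add (X i)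
      simpa using this
    have h2 := (h1.log (by simpa using (hXp i).ne')).const_mul (I i)
    simpa using h2
  have hev : ∀ᶠ s in 𝓝[>] (0 : ℝ), s⁻¹ • (φ (0 + s) - φ 0) ≤ 0 := by
    have h1 : ∀ᶠ s in 𝓝 (0 : ℝ), ∀ i, 0 < X i + s * (t i - X i) := by
      rw [Filter.eventually_all]
      intro i
      have hc : ContinuousAt (fun s : ℝ => X i + s * (t i - X i)) 0 := by fun_prop
      have h2 : (0 : ℝ) < X i + 0 * (t i - X i) := by simpa using hXp i
      exact hc.eventually (lt_mem_nhds h2)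
    have h2 : ∀ᶠ s in 𝓝[>] (0 : ℝ), s < 1 :=
      nhdsWithin_le_nhds (Iio_mem_nhds zero_lt_one)
    filter_upwards [nhdsWithin_le_nhds h1, h2, self_mem_nhdsWithin] with s hs hs1 hs0
    have hs0' : (0 : ℝ) < s := hs0
    have hmem : (fun i => X i + s * (t i - X i)) ∈ T := by
      have := hT hX ht (by linarith : (0 : ℝ) ≤ 1 - s) hs0'.le (by ring)
      convert this using 1
      funext i
      simp only [Pi.add_apply, Pi.smul_apply, smul_eq_mul]
      ring
    have h3 := hmax _ hmem hs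
    have h4 : φ (0 + s) ≤ φ 0 := by
      rw [hφ]
      simp only [zero_add, zero_mul, add_zero]
      exact h3
    rw [smul_eq_mul]
    exact mul_nonpos_of_nonneg_of_nonpos (inv_nonneg.mpr hs0'.le) (by linarith)
  have hle : ∑ i, I i * ((t i - X i) / X i) ≤ 0 := by
    have h1 := (hasDerivAt_iff_tendsto_slope_zero.mp hd).mono_left (nhdsGT_le_nhdsNE (0 : ℝ))
    exact le_of_tendsto h1 hev
  have h5 : ∑ i, I i * ((t i - X i) / X i) = ∑ i, I i / X i * t i - ∑ i, I i := by
    rw [← Finset.sum_sub_distrib]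
    refine Finset.sum_congr rfl fun i _ => ?_
    have := (hXp i).ne'
    field_simp
  linarith

/-- the quantitative continuity -/
theorem quant {m : ℕ} (I J X Y : Fin m → ℝ) (hI : ∀ i, 0 < I i) (hJ : ∀ i, 0 < J i)
    (hX : ∀ i, 0 < X i) (hY : ∀ i, 0 < Y i) (h1 : ∑ i, I i / X i * Y i ≤ ∑ i, I i)
    (h2 : ∑ i, J i / Y i * X i ≤ ∑ i, J i) (i : Fin m) :
    |Y i - X i| ≤ Real.sqrt (X i ^ 2 * (∑ l, I l) / I i ^ 2 *
      ∑ k, |I k - J k| * ((∑ l, J l) / J k + 1)) := by
  set R := ∑ k, |I k - J k| * ((∑ l, J l) / J k + 1) with hR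
  have hr : ∀ k, X k / Y k ≤ (∑ l, J l) / J k := by
    intro k
    have h3 : J k / Y k * X k ≤ ∑ i, J i / Y i * X i :=
      Finset.single_le_sum (f := fun i => J i / Y i * X i)
        (fun l _ => by have := hJ l; have := hY l; have := hX l; positivity) (Finset.mem_univ k)
    rw [le_div_iff₀ (hJ k)]
    calc X k / Y k * J k = J k / Y k * X k := by ring
      _ ≤ _ := h3.trans h2
  have hr' : Y i / X i ≤ (∑ l, I l) / I i := by
    have h3 : I i / X i * Y i ≤ ∑ i, I i / X i * Y i :=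
      Finset.single_le_sum (f := fun i => I i / X i * Y i)
        (fun l _ => by have := hI l; have := hY l; have := hX l; positivity) (Finset.mem_univ i)
    rw [le_div_iff₀ (hI i)]
    calc Y i / X i * I i = I i / X i * Y i := by ring
      _ ≤ _ := h3.trans h1
  have hsum : ∑ k, I k * ((Y k - X k) ^ 2 / (X k * Y k)) ≤ R := by
    have h3 : ∑ k, I k * ((Y k - X k) ^ 2 / (X k * Y k)) =
        (∑ k, I k / X k * Y k - ∑ k, I k) + (∑ k, J k / Y k * X k - ∑ k, J k) +
          ∑ k, (I k - J k) * (X k / Y k - 1) := by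
      rw [← Finset.sum_sub_distrib, ← Finset.sum_sub_distrib, ← Finset.sum_add_distrib,
        ← Finset.sum_add_distrib]
      refine Finset.sum_congr rfl fun k _ => ?_
      have := (hX k).ne'
      have := (hY k).ne'
      field_simp
      ring
    have h4 : ∑ k, (I k - J k) * (X k / Y k - 1) ≤ R := by
      refine Finset.sum_le_sum fun k _ => ?_
      have h5 : 0 < X k / Y k := div_pos (hX k) (hY k)
      have h6 : |X k / Y k - 1| ≤ (∑ l, J l) / J k + 1 := by
        rw [abs_le]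
        constructor
        · have := hr k
          linarith
        · have := hr k
          linarith
      calc (I k - J k) * (X k / Y k - 1) ≤ |(I k - J k) * (X k / Y k - 1)| := le_abs_self _
        _ = |I k - J k| * |X k / Y k - 1| := abs_mul _ _
        _ ≤ _ := mul_le_mul_of_nonneg_left h6 (abs_nonneg _)
    linarith
  have hterm : I i * ((Y i - X i) ^ 2 / (X i * Y i)) ≤ R := by
    refine le_trans ?_ hsum
    exact Finset.single_le_sum (f := fun k => I k * ((Y k - X k) ^ 2 / (X k * Y k)))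
      (fun l _ => by have := hI l; have := hY l; have := hX l; positivity) (Finset.mem_univ i)
  have hR0 : 0 ≤ R := le_trans
    (by have := hI i; have := hY i; have := hX i; positivity) hterm
  have hXi := hX i
  have hYi := hY i
  have hIi := hI i
  have hfin : (Y i - X i) ^ 2 ≤ X i ^ 2 * (∑ l, I l) / I i ^ 2 * R := by
    have h3 : (Y i - X i) ^ 2 = I i * ((Y i - X i) ^ 2 / (X i * Y i)) * (X i ^ 2 * (Y i / X i) / I i) := by
      field_simp
    rw [h3]
    have h4 : X i ^ 2 * (Y i / X i) / I i ≤ X i ^ 2 * (∑ l, I l) / I i ^ 2 := by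
      calc X i ^ 2 * (Y i / X i) / I i ≤ X i ^ 2 * ((∑ l, I l) / I i) / I i := by gcongr
        _ = X i ^ 2 * (∑ l, I l) / I i ^ 2 := by field_simp
    calc I i * ((Y i - X i) ^ 2 / (X i * Y i)) * (X i ^ 2 * (Y i / X i) / I i)
        ≤ R * (X i ^ 2 * (∑ l, I l) / I i ^ 2) :=
          mul_le_mul hterm h4 (by positivity) hR0
      _ = _ := by ring
  exact Real.abs_le_sqrt hfin

theorem main : Pool.Agent.Y52.SJ.S_LOZ := by
  intro m T hT
  have hex : ∀ I : Fin m → ℝ, (∀ i, 0 < I i) → ∃ X : Fin m → ℝ, X ∈ T ∧ (∀ i, 0 < X i) ∧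
      (∀ t ∈ T, (∀ i, 0 < t i) → ∑ i, I i * Real.log (t i) ≤ ∑ i, I i * Real.log (X i)) ∧
      ∀ t ∈ T, ∑ i, I i / X i * t i ≤ ∑ i, I i := by
    intro I hI
    obtain ⟨X, hX, hXp, hmax⟩ := exists_max T hT I hI
    exact ⟨X, hX, hXp, hmax, fun t ht => opt T hT.conv I X hX hXp hmax t ht⟩
  choose! X hX using hex
  refine ⟨X, ?_, hX⟩
  intro I hI
  have hI' : ∀ i, 0 < I i := hI
  rw [ContinuousWithinAt, tendsto_pi_nhds]
  intro i
  rw [tendsto_iff_norm_sub_tendsto_zero]
  have hR : Tendsto (fun J : Fin m → ℝ => Real.sqrt (X I i ^ 2 * (∑ l, I l) / I i ^ 2 *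
      ∑ k, |I k - J k| * ((∑ l, J l) / J k + 1))) (𝓝[{I | ∀ i, 0 < I i}] I) (𝓝 0) := by
    have h1 : Tendsto (fun J : Fin m → ℝ => ∑ k, |I k - J k| * ((∑ l, J l) / J k + 1)) (𝓝 I)
        (𝓝 (∑ k, |I k - I k| * ((∑ l, I l) / I k + 1))) := by
      refine tendsto_finsetSum _ fun k _ => ?_
      have c0 : ContinuousAt (fun J : Fin m → ℝ => J k) I := (continuous_apply k).continuousAt
      have c1 : ContinuousAt (fun J : Fin m → ℝ => |I k - J k|) I :=
        (continuousAt_const.sub c0).abs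
      have c3 : ContinuousAt (fun J : Fin m → ℝ => ∑ l, J l) I := by
        refine Continuous.continuousAt ?_
        exact continuous_finsetSum _ fun l _ => continuous_apply l
      have c4 : ContinuousAt (fun J : Fin m → ℝ => (∑ l, J l) / J k) I :=
        ContinuousAt.div c3 c0 (hI' k).ne'
      exact c1.mul (c4.add continuousAt_const)
    have h2 : ∑ k, |I k - I k| * ((∑ l, I l) / I k + 1) = 0 :=
      Finset.sum_eq_zero fun k _ => by rw [sub_self, abs_zero, zero_mul]
    rw [h2] at h1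
    have h3 := (h1.const_mul (X I i ^ 2 * (∑ l, I l) / I i ^ 2)).sqrt
    rw [mul_zero, Real.sqrt_zero] at h3
    exact h3.mono_left nhdsWithin_le_nhds
  refine squeeze_zero' (Eventually.of_forall fun J => norm_nonneg _) ?_ hR
  filter_upwards [self_mem_nhdsWithin] with J hJ
  have hJ' : ∀ i, 0 < J i := hJ
  obtain ⟨a1, a2, -, a4⟩ := hX I hI'
  obtain ⟨b1, b2, -, b4⟩ := hX J hJ'
  rw [Real.norm_eq_abs]
  exact quant I J (X I) (X J) hI' hJ' a2 b2 (a4 _ b1) (b4 _ a1) i

end Pool.Agent.Y297.SJ
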